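import Pool.Agent.N641.VB.Stm

/-!
# Project VB (helper641), part ALG2 (helper694): compact monoids, structure of a minimal type
-/

set_option autoImplicit false

namespace Pool.Agent.N694.VB

open Set

/-- the divisors of `t` -/
def D {X : Type} [AddCommMonoid X] (t : X) : Set X := {u : X | ∃ v, u + v = t}

section Alg

variable {X : Type} [AddCommMonoid X]

theorem D_self (t : X) : t ∈ D t := ⟨0, add_zero t⟩

theorem D_trans {u t : X} (h : u ∈ D t) : D u ⊆ D t := by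
  rintro w ⟨a, ha⟩
  obtain ⟨b, hb⟩ := h
  exact ⟨a + b, by rw [← add_assoc, ha]; exact hb⟩

theorem D_left (u v : X) : u ∈ D (u + v) := ⟨v, rfl⟩

theorem D_right (u v : X) : v ∈ D (u + v) := ⟨u, add_comm v u⟩

/-- the hypotheses -/
structure H (X : Type) [TopologicalSpace X] [AddCommMonoid X] (t1 : X) : Prop where
  iso : ∀ t : X, (D t).Finite → IsOpen {t}
  opn : IsOpenMap (fun q : X × X => q.1 + q.2)
  ref : ∀ p q u v : X, p + q = u + v → ∃ p1 p2 q1 q2 : X, p1 + p2 = p ∧ q1 + q2 = q ∧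
    p1 + q1 = u ∧ p2 + q2 = v
  inf : (D t1).Infinite
  ct : (D t1).Countable
  min : ∀ u ∈ D t1, (D u).Infinite → t1 ∈ D u
  acc : ∃ h ∈ D t1, h ∈ closure (D t1 \ {h})

/-- the elements with infinitely many divisors -/
def C (t1 : X) : Set X := {u | u ∈ D t1 ∧ (D u).Infinite}

end Alg

section Top

variable {X : Type} [TopologicalSpace X] [CompactSpace X] [T2Space X] [AddCommMonoid X]
  [ContinuousAdd X] {t1 : X}

theorem closed_pairs (t : X) : IsClosed {q : X × X | q.1 + q.2 = t} :=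
  isClosed_eq (continuous_fst.add continuous_snd) continuous_const

theorem closed_D (t : X) : IsClosed (D t) := by
  have h : D t = Prod.fst '' {q : X × X | q.1 + q.2 = t} := by
    ext u
    constructor
    · rintro ⟨v, hv⟩
      exact ⟨(u, v), hv, rfl⟩
    · rintro ⟨⟨a, b⟩, hab, rfl⟩
      exact ⟨b, hab⟩
  rw [h]
  exact ((closed_pairs t).isCompact.image continuous_fst).isClosed

omit [CompactSpace X] [T2Space X] [ContinuousAdd X] in
theorem fin_add (hH : H X t1) {u v : X} (hu : (D u).Finite) (hv : (D v).Finite) :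
    (D (u + v)).Finite := by
  refine (hu.image2 (fun a b => a + b) hv).subset ?_
  rintro w ⟨z, hz⟩
  obtain ⟨p1, p2, q1, q2, h1, -, h3, h4⟩ := hH.ref w z u v hz
  exact ⟨p1, ⟨q1, h3⟩, p2, ⟨q2, h4⟩, h1⟩

omit [CompactSpace X] [T2Space X] [ContinuousAdd X] in
theorem C_D (hH : H X t1) {u : X} (hu : u ∈ C t1) : D u = D t1 :=
  Subset.antisymm (D_trans hu.1) (D_trans (hH.min u hu.1 hu.2))

omit [CompactSpace X] [T2Space X] [ContinuousAdd X] in
theorem t1_mem (hH : H X t1) : t1 ∈ C t1 := ⟨D_self t1, hH.inf⟩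

theorem closed_C (hH : H X t1) : IsClosed (C t1) := by
  have h : C t1 = D t1 ∩ {t : X | (D t).Finite}ᶜ := by
    ext u
    rfl
  rw [h]
  refine (closed_D t1).inter ?_
  rw [isClosed_compl_iff, isOpen_iff_forall_mem_open]
  intro t ht
  exact ⟨{t}, singleton_subset_iff.2 ht, hH.iso t ht, rfl⟩

/-- (1) -/
theorem split (hH : H X t1) : ∃ c ∈ C t1, ∃ c' ∈ C t1, c + c' = t1 := by
  by_contra hno
  push Not at hno
  have hc : IsCompact {q : X × X | q.1 + q.2 = t1} := (closed_pairs t1).isCompact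
  obtain ⟨F0, hF0, hfin, hcov⟩ := hc.elim_finite_subcover_image
    (b := {u : X | u ∈ D t1 ∧ (D u).Finite})
    (c := fun f => (Prod.fst ⁻¹' {f}) ∪ (Prod.snd ⁻¹' {f}))
    (fun f hf => ((hH.iso f hf.2).preimage continuous_fst).union
      ((hH.iso f hf.2).preimage continuous_snd))
    (by
      rintro ⟨x, y⟩ hxy
      have hxy' : x + y = t1 := hxy
      have hx : x ∈ D t1 := ⟨y, hxy'⟩
      have hy : y ∈ D t1 := ⟨x, by rw [add_comm]; exact hxy'⟩
      rw [mem_iUnion₂]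
      by_cases h1 : (D x).Finite
      · exact ⟨x, ⟨hx, h1⟩, Or.inl rfl⟩
      · by_cases h2 : (D y).Finite
        · exact ⟨y, ⟨hy, h2⟩, Or.inr rfl⟩
        · exact absurd hxy' (hno x ⟨hx, h1⟩ y ⟨hy, h2⟩))
  have hF : {u : X | u ∈ D t1 ∧ (D u).Finite} ⊆ F0 := by
    rintro f ⟨⟨y, hy⟩, hf⟩
    have h1 := hcov (show (f, y) ∈ {q : X × X | q.1 + q.2 = t1} from hy)
    rw [mem_iUnion₂] at h1
    obtain ⟨g, hg, h2⟩ := h1
    rcases h2 with h2 | h2
    · have h3 : f = g := h2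
      rw [h3]
      exact hg
    · have h3 : y = g := h2
      exfalso
      have h4 : (D y).Finite := by
        rw [h3]
        exact (hF0 hg).2
      have h5 := fin_add hH hf h4
      rw [hy] at h5
      exact hH.inf h5
  have hFfin : {u : X | u ∈ D t1 ∧ (D u).Finite}.Finite := hfin.subset hF
  have hCfin : (C t1).Finite := by
    refine (hFfin.image (fun z => t1 + z)).subset ?_
    intro v hv
    obtain ⟨y, hy⟩ := hv.1
    obtain ⟨z, hz⟩ := hH.min v hv.1 hv.2
    have hzD : z ∈ D t1 := D_trans hv.1 ⟨t1, by rw [add_comm]; exact hz⟩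
    refine ⟨z, ⟨hzD, ?_⟩, hz⟩
    by_contra hzi
    have h1 : t1 + (z + y) = t1 := by rw [← add_assoc, hz, hy]
    have h2 : z + y ∈ C t1 := by
      refine ⟨⟨t1, by rw [add_comm]; exact h1⟩, ?_⟩
      intro h3
      exact hzi (h3.subset (D_trans (D_left z y)))
    exact hno t1 (t1_mem hH) _ h2 h1
  refine hH.inf ((hFfin.union hCfin).subset ?_)
  intro u hu
  by_cases h1 : (D u).Finite
  · exact Or.inl ⟨hu, h1⟩
  · exact Or.inr ⟨hu, h1⟩

/-- (2) -/
theorem quot (hH : H X t1) {u x : X} (hu : u ∈ C t1) (hx : x ∈ D t1) :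
    ∃ c ∈ C t1, x + c = u := by
  obtain ⟨c0, hc0, c1, hc1, h⟩ := split hH
  obtain ⟨z, hz⟩ := hH.min u hu.1 hu.2
  have hx' : x ∈ D c0 := by
    rw [C_D hH hc0]
    exact hx
  obtain ⟨w, hw⟩ := hx'
  have h1 : x + (w + c1 + z) = u := by
    rw [← hz, ← h, ← hw]
    abel
  refine ⟨w + c1 + z, ⟨?_, ?_⟩, h1⟩
  · exact D_trans hu.1 ⟨x, by rw [add_comm]; exact h1⟩
  · intro h2
    refine hc1.2 (h2.subset (D_trans ⟨w + z, ?_⟩))
    abel

/-- (3) -/
theorem add_mem (hH : H X t1) {u v : X} (hu : u ∈ C t1) (hv : v ∈ C t1) : u + v ∈ C t1 := by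
  obtain ⟨c1, hc1, h1⟩ := quot hH (t1_mem hH) hu.1
  obtain ⟨c2, hc2, h2⟩ := quot hH hc1 hv.1
  refine ⟨⟨c2, ?_⟩, fun h => hu.2 (h.subset (D_trans (D_left u v)))⟩
  rw [add_assoc, h2, h1]

/-- (4) -/
theorem exists_id (hH : H X t1) : ∃ e ∈ C t1, ∀ v ∈ C t1, v + e = v := by
  obtain ⟨e, he, h1⟩ := quot hH (t1_mem hH) (D_self t1)
  refine ⟨e, he, fun v hv => ?_⟩
  obtain ⟨z, hz⟩ := hH.min v hv.1 hv.2
  rw [← hz, add_right_comm, h1]

/-- (5) -/
theorem fin_C (hH : H X t1) : (C t1).Finite := by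
  obtain ⟨e, he, hid⟩ := exists_id hH
  have h1 : CompactSpace (C t1) := isCompact_iff_compactSpace.1 (closed_C hH).isCompact
  have h2 : Countable (C t1) := (hH.ct.mono fun u hu => hu.1).to_subtype
  have h3 : Nonempty (C t1) := ⟨⟨t1, t1_mem hH⟩⟩
  obtain ⟨c0, hc0⟩ := nonempty_interior_of_iUnion_of_closed
    (f := fun c : C t1 => ({c} : Set (C t1))) (fun i => isClosed_singleton)
    (by
      ext x
      simp)
  have h4 : IsOpen ({c0} : Set (C t1)) := by
    have h5 : interior ({c0} : Set (C t1)) = {c0} :=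
      (Set.Nonempty.subset_singleton_iff hc0).1 interior_subset
    rw [← h5]
    exact isOpen_interior
  have h6 : ∀ v : C t1, IsOpen ({v} : Set (C t1)) := by
    intro v
    obtain ⟨w, hw, hvw⟩ := quot hH c0.2 v.2.1
    obtain ⟨w', hw', hww⟩ := quot hH he hw.1
    let g : C t1 → C t1 := fun x => ⟨x.1 + w, add_mem hH x.2 hw⟩
    have hg : Continuous g :=
      Continuous.subtype_mk (continuous_subtype_val.add continuous_const) _
    have h7 : g ⁻¹' {c0} = {v} := by
      ext x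
      constructor
      · intro hx
        have h8 : x.1 + w = c0.1 := congrArg Subtype.val hx
        apply Subtype.ext
        have h9 : x.1 + w + w' = v.1 + w + w' := by rw [h8, hvw]
        rw [add_assoc, hww, add_assoc, hww, hid _ x.2, hid _ v.2] at h9
        exact h9
      · intro hx
        have h8 : x = v := hx
        rw [h8]
        exact Subtype.ext hvw
    rw [← h7]
    exact h4.preimage hg
  have h8 : DiscreteTopology (C t1) := ⟨eq_bot_of_singletons_open h6⟩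
  have h9 : Finite (C t1) := finite_of_compact_of_discrete
  exact Set.toFinite _

/-- the punctured set is closed -/
theorem open_compl (hH : H X t1) (h : X) : IsOpen (C t1 \ {h})ᶜ :=
  (((fin_C hH).subset diff_subset).isClosed).isOpen_compl

/-- the accumulation points -/
theorem acc (hH : H X t1) {u : X} (hu : u ∈ C t1) {N : Set X} (hN : IsOpen N) (huN : u ∈ N) :
    ∃ f ∈ N, f ∈ D t1 ∧ f ≠ u := by
  by_contra hcon
  push Not at hcon
  obtain ⟨h, hh, hhc⟩ := hH.acc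
  have hhC : h ∈ C t1 := by
    refine ⟨hh, fun h1 => ?_⟩
    obtain ⟨y, hy1, hy2⟩ := mem_closure_iff.1 hhc {h} (hH.iso h h1) rfl
    exact hy2.2 hy1
  have hud : u ∈ D h := by
    rw [C_D hH hhC]
    exact hu.1
  obtain ⟨w, hw⟩ := hud
  have hO : IsOpen ((fun q : X × X => q.1 + q.2) '' (N ×ˢ univ)) := hH.opn _ (hN.prod isOpen_univ)
  obtain ⟨f, ⟨⟨⟨c, w'⟩, ⟨hcN, -⟩, hcw⟩, hf2⟩, hf3, hf4⟩ := mem_closure_iff.1 hhc _
    (hO.inter (open_compl hH h)) ⟨⟨(u, w), ⟨huN, trivial⟩, hw⟩, fun h1 => h1.2 rfl⟩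
  have hcw' : c + w' = f := hcw
  have hcN' : c ∈ N := hcN
  have hfF : (D f).Finite := by
    by_contra h1
    exact hf2 ⟨⟨hf3, h1⟩, hf4⟩
  have h2 : c ∈ D f := ⟨w', hcw'⟩
  have h3 := hcon c hcN' (D_trans hf3 h2)
  rw [h3] at h2
  exact hu.2 (hfF.subset (D_trans h2))

/-- (6) -/
theorem last (hH : H X t1) {e : X} (he : e ∈ C t1) (hid : ∀ v ∈ C t1, v + e = v) {u : X}
    (hu : u ∈ C t1) :
    u ∈ closure {f : X | f ∈ D e ∧ (D f).Finite ∧ f + e = u} := by
  rw [mem_closure_iff]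
  intro N hN huN
  have hc : Continuous fun x : X => x + e := continuous_id.add continuous_const
  have hu' : u ∉ C t1 \ {u} := fun h => h.2 rfl
  obtain ⟨f, ⟨⟨hf1, hf2⟩, hf3⟩, hf4, hf5⟩ := acc hH hu
    ((hN.inter (open_compl hH u)).inter ((open_compl hH u).preimage hc))
    ⟨⟨huN, hu'⟩, by
      change u + e ∈ (C t1 \ {u})ᶜ
      rw [hid u hu]
      exact hu'⟩
  have hfF : (D f).Finite := by
    by_contra h1
    exact hf2 ⟨⟨hf4, h1⟩, hf5⟩
  have hfe : f ∈ D e := by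
    rw [C_D hH he]
    exact hf4
  have h2 : f + e ∈ C t1 := by
    obtain ⟨y, hy⟩ := hfe
    constructor
    · rw [← C_D hH he]
      refine ⟨y, ?_⟩
      rw [add_right_comm, hy, hid e he]
    · intro h1
      exact he.2 (h1.subset (D_trans (D_right f e)))
  have h3 : f + e = u := by
    by_contra h1
    exact hf3 ⟨h2, h1⟩
  exact ⟨f, hf1, hfe, hfF, h3⟩

end Top

theorem ALG2 : Pool.Agent.N641.VB.S_ALG2 := by
  intro X _ _ _ _ _ hiso hopn href t1 hinf hct hmin hacc
  have hH : H X t1 := ⟨hiso, hopn, href, hinf, hct, hmin, hacc⟩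
  obtain ⟨e, he, hid⟩ := exists_id hH
  have hC : ∀ u : X, (∃ v, u + v = e) → {w : X | ∃ v, w + v = u}.Infinite → u ∈ C t1 := by
    intro u h1 h2
    have h3 : u ∈ D e := h1
    rw [C_D hH he] at h3
    exact ⟨h3, h2⟩
  refine ⟨e, he.1, hid e he, he.2, fun u h1 h2 => ?_, fun u h1 h2 => last hH he hid (hC u h1 h2)⟩
  have hu := hC u h1 h2
  obtain ⟨w, hw, huw⟩ := quot hH he hu.1
  refine ⟨hid u hu, w, ?_, hw.2, huw⟩
  have h3 : w ∈ D e := by
    rw [C_D hH he]
    exact hw.1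
  exact h3

end Pool.Agent.N694.VB
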